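import Mathlib

/-!
MP_56e989_nt, CountingBarrier: definitions.

`w s` plays the role of the number of `m` in an interval of `t` consecutive integers with `t`-smooth component `s`.
-/

set_option autoImplicit false

namespace Pool.Agent.Helper36.CB

/-- `∑_{d ∣ s} w s`: the number of `m` whose `t`-smooth component is divisible by `d` -/
noncomputable def mult (w : ℕ → ℝ) (d : ℕ) : ℝ := ∑' s : ℕ, if d ∣ s then w s else 0

/-- `∑_s min (w s) 1`: the number of distinct values -/
noncomputable def distinct (w : ℕ → ℝ) : ℝ := ∑' s : ℕ, min (w s) 1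

/-- `∑_{s ≥ x} w s`: the number of `m` with `t`-smooth component at least `x` -/
noncomputable def above (w : ℕ → ℝ) (x : ℝ) : ℝ := ∑' s : ℕ, if x ≤ (s : ℝ) then w s else 0

/-- the counting information: a nonnegative weight of total mass `t` on the `t`-smooth numbers whose sum over the
multiples of `d` differs from `t / d` by at most `1` for every `t`-smooth `d`, and is at most `1` if `d ≥ t` -/
structure Counts (t : ℕ) (w : ℕ → ℝ) : Prop where
  nonneg : ∀ s, 0 ≤ w s
  smooth : ∀ s, w s ≠ 0 → s ∈ Nat.smoothNumbers t
  total : HasSum w t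
  close : ∀ d ∈ Nat.smoothNumbers t, |mult w d - t / d| ≤ 1
  large : ∀ d, t ≤ d → mult w d ≤ 1

end Pool.Agent.Helper36.CB
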