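import Pool.Agent.Helper36.CB.Sums
import Pool.Agent.Helper36.CB.Defs

/-!
MP_56e989_nt, CountingBarrier: the law.
-/

set_option autoImplicit false

namespace Pool.Agent.Helper36.CB

/-- `s ^ (κ - 1)` on the `t`-smooth numbers -/
noncomputable def gg (κ : ℝ) (t : ℕ) : ℕ → ℝ :=
  (Nat.smoothNumbers t).indicator fun s => (s : ℝ) ^ (κ - 1)

theorem gg_nonneg (κ : ℝ) (t s : ℕ) : 0 ≤ gg κ t s := by
  unfold gg
  apply Set.indicator_nonneg
  intro s _
  positivity

theorem one_mem (t : ℕ) : 1 ∈ Nat.smoothNumbers t := by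
  rw [Nat.mem_smoothNumbers]
  simp

theorem gg_summable {κ : ℝ} (h1 : κ < 1) (t : ℕ) : Summable (gg κ t) := by
  let f : ℕ →* ℝ :=
    { toFun := fun n => (n : ℝ) ^ (κ - 1)
      map_one' := by
        rw [Nat.cast_one, Real.one_rpow]
      map_mul' := fun a b => by
        rw [Nat.cast_mul, Real.mul_rpow (Nat.cast_nonneg _) (Nat.cast_nonneg _)] }
  have hf : ∀ {p : ℕ}, p.Prime → ‖f p‖ < 1 := by
    intro p hp
    have h2 : (1 : ℝ) < p := by exact_mod_cast hp.one_lt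
    have h3 : f p = (p : ℝ) ^ (κ - 1) := rfl
    rw [h3, Real.norm_of_nonneg (by positivity)]
    exact Real.rpow_lt_one_of_one_lt_of_neg h2 (by linarith)
  have h4 := (EulerProduct.summable_and_hasSum_smoothNumbers_prod_primesBelow_geometric
    (f := f) hf t).2.summable
  have h5 : Summable (fun m : Nat.smoothNumbers t => (fun s : ℕ => (s : ℝ) ^ (κ - 1)) m) := h4
  exact summable_subtype_iff_indicator.1 h5

/-- the total mass of `gg` -/
noncomputable def ZZ (κ : ℝ) (t : ℕ) : ℝ := ∑' s, gg κ t s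

theorem ZZ_pos {κ : ℝ} (h1 : κ < 1) (t : ℕ) : 0 < ZZ κ t := by
  have h2 : gg κ t 1 = 1 := by
    unfold gg
    rw [Set.indicator_of_mem (one_mem t)]
    simp
  have h3 : gg κ t 1 ≤ ZZ κ t := (gg_summable h1 t).le_tsum 1 fun s _ => gg_nonneg κ t s
  linarith

theorem gg_mul {κ : ℝ} {t d : ℕ} (hd : d ∈ Nat.smoothNumbers t) (j : ℕ) :
    gg κ t (d * j) = (d : ℝ) ^ (κ - 1) * gg κ t j := by
  unfold gg
  by_cases hj : j ∈ Nat.smoothNumbers t
  · rw [Set.indicator_of_mem (Nat.mul_mem_smoothNumbers hd hj), Set.indicator_of_mem hj, Nat.cast_mul,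
      Real.mul_rpow (Nat.cast_nonneg _) (Nat.cast_nonneg _)]
  · have h2 : d * j ∉ Nat.smoothNumbers t := fun h => hj (Nat.mem_smoothNumbers_of_dvd h (dvd_mul_left _ _))
    rw [Set.indicator_of_notMem h2, Set.indicator_of_notMem hj, mul_zero]

/-- sums over the multiples of `d` -/
theorem hasSum_dvd {f : ℕ → ℝ} {d : ℕ} (hd : 1 ≤ d) {a : ℝ} (h : HasSum (fun j => f (d * j)) a) :
    HasSum (fun s => if d ∣ s then f s else 0) a := by
  have hinj : Function.Injective fun j : ℕ => d * j := fun a b hab =>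
    Nat.eq_of_mul_eq_mul_left (by omega) hab
  rw [← hinj.hasSum_iff]
  · have h2 : (fun s => if d ∣ s then f s else 0) ∘ (fun j : ℕ => d * j) = fun j => f (d * j) := by
      funext j
      exact if_pos (dvd_mul_right d j)
    rw [h2]
    exact h
  · intro x hx
    rw [if_neg]
    rintro ⟨c, rfl⟩
    exact hx ⟨c, rfl⟩

theorem gg_dvd {κ : ℝ} (h1 : κ < 1) {t d : ℕ} (hd : d ∈ Nat.smoothNumbers t) :
    HasSum (fun s => if d ∣ s then gg κ t s else 0) ((d : ℝ) ^ (κ - 1) * ZZ κ t) := by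
  have hd0 := Nat.ne_zero_of_mem_smoothNumbers hd
  refine hasSum_dvd (by omega) ?_
  have h2 := ((gg_summable h1 t).hasSum).mul_left ((d : ℝ) ^ (κ - 1))
  have h3 : (fun j => gg κ t (d * j)) = fun j => (d : ℝ) ^ (κ - 1) * gg κ t j := by
    funext j
    exact gg_mul hd j
  rw [h3]
  exact h2

/-- the density of the main part -/
noncomputable def nu (κ : ℝ) (t s : ℕ) : ℝ :=
  kk κ t * ((s : ℝ) ^ (κ - 1) * (t : ℝ) ^ (-κ) - EE κ t / t)

/-- the main part -/
noncomputable def w1 (κ : ℝ) (t s : ℕ) : ℝ := if 1 ≤ s ∧ s < t then t * nu κ t s else 0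

theorem w1_dvd {κ : ℝ} {t d : ℕ} (hd : 1 ≤ d) :
    HasSum (fun s => if d ∣ s then w1 κ t s else 0) (t * AA κ t d) := by
  refine hasSum_dvd hd ?_
  obtain ⟨J, hJ⟩ : ∃ J, J = (t - 1) / d := ⟨_, rfl⟩
  have hJ1 : d * J ≤ t - 1 := by rw [hJ]; exact Nat.mul_div_le _ _
  have hJ2 : t - 1 < d * (J + 1) := by
    rw [hJ]
    exact Nat.lt_mul_div_succ _ (by omega)
  have h1 : HasSum (fun j => w1 κ t (d * j)) (∑ j ∈ Finset.range (J + 1), w1 κ t (d * j)) := by
    refine hasSum_sum_of_ne_finset_zero ?_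
    intro j hj
    rw [Finset.mem_range, not_lt] at hj
    have h2 : d * (J + 1) ≤ d * j := Nat.mul_le_mul_left _ hj
    unfold w1
    rw [if_neg]
    omega
  have h2 : ∑ j ∈ Finset.range (J + 1), w1 κ t (d * j) = t * AA κ t d := by
    rw [Finset.sum_range_succ']
    have h3 : w1 κ t (d * 0) = 0 := by
      unfold w1
      rw [if_neg]
      omega
    rw [h3, add_zero]
    have h4 : ∀ j ∈ Finset.range J, w1 κ t (d * (j + 1)) =
        t * (kk κ t * ((d : ℝ) ^ (κ - 1) * (t : ℝ) ^ (-κ) * ((j : ℝ) + 1) ^ (κ - 1) - EE κ t / t)) := by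
      intro j hj
      rw [Finset.mem_range] at hj
      have h5 : d * (j + 1) ≤ d * J := Nat.mul_le_mul_left _ hj
      have h6 : 1 ≤ d * (j + 1) := Nat.mul_pos (by omega) (by omega)
      unfold w1 nu
      rw [if_pos ⟨h6, by omega⟩]
      push_cast
      rw [Real.mul_rpow (Nat.cast_nonneg _) (by positivity)]
      ring
    rw [Finset.sum_congr rfl h4, ← Finset.mul_sum, ← Finset.mul_sum, Finset.sum_sub_distrib,
      ← Finset.mul_sum]
    unfold AA SS
    rw [← hJ]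
    simp only [Finset.sum_const, Finset.card_range, nsmul_eq_mul]
    ring
  rw [← h2]
  exact h1

/-- the defect of the total mass -/
noncomputable def e1 (κ : ℝ) (t : ℕ) : ℝ := AA κ t 1 + (t : ℝ) ^ (-κ) - 1

/-- the law -/
noncomputable def ww (κ : ℝ) (t s : ℕ) : ℝ :=
  w1 κ t s + (t : ℝ) ^ (1 - κ) / ZZ κ t * gg κ t s - if s = 1 then t * e1 κ t else 0

theorem one_dvd_sum {κ : ℝ} {t d : ℕ} :
    HasSum (fun s => if d ∣ s then (if s = 1 then t * e1 κ t else 0) else 0)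
      (if d = 1 then t * e1 κ t else 0) := by
  have h1 : (fun s => if d ∣ s then (if s = 1 then (t : ℝ) * e1 κ t else 0) else 0) =
      fun s => if s = 1 then (if d = 1 then (t : ℝ) * e1 κ t else 0) else 0 := by
    funext s
    by_cases hs : s = 1
    · subst hs
      simp [Nat.dvd_one]
    · simp [hs]
  rw [h1]
  exact hasSum_ite_eq 1 _

theorem ww_dvd {κ : ℝ} (h1 : κ < 1) {t d : ℕ} (hd : d ∈ Nat.smoothNumbers t) (ht : 1 ≤ t) :
    HasSum (fun s => if d ∣ s then ww κ t s else 0)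
      (t * (AA κ t d + (d : ℝ) ^ (κ - 1) * (t : ℝ) ^ (-κ)) - if d = 1 then t * e1 κ t else 0) := by
  have hd0 := Nat.ne_zero_of_mem_smoothNumbers hd
  have hT : (0 : ℝ) < t := by exact_mod_cast ht
  have h2 := ((w1_dvd (κ := κ) (t := t) (show 1 ≤ d by omega)).add
    ((gg_dvd h1 hd).mul_left ((t : ℝ) ^ (1 - κ) / ZZ κ t))).sub (one_dvd_sum (κ := κ) (t := t) (d := d))
  have h3 : t * AA κ t d + (t : ℝ) ^ (1 - κ) / ZZ κ t * ((d : ℝ) ^ (κ - 1) * ZZ κ t) =
      t * (AA κ t d + (d : ℝ) ^ (κ - 1) * (t : ℝ) ^ (-κ)) := by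
    have h4 := (ZZ_pos h1 t).ne'
    have h5 : (t : ℝ) ^ (1 - κ) = t * (t : ℝ) ^ (-κ) := by
      rw [sub_eq_add_neg, Real.rpow_add hT, Real.rpow_one]
    rw [h5]
    field_simp
  rw [h3] at h2
  have h6 : (fun s => if d ∣ s then ww κ t s else 0) = fun s =>
      ((if d ∣ s then w1 κ t s else 0) + (t : ℝ) ^ (1 - κ) / ZZ κ t * (if d ∣ s then gg κ t s else 0)) -
        (if d ∣ s then (if s = 1 then t * e1 κ t else 0) else 0) := by
    funext s
    by_cases hs : d ∣ s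
    · simp only [hs, if_true, ww]
    · simp only [hs, if_false]
      ring
  rw [h6]
  exact h2

theorem ww_smooth {κ : ℝ} {t s : ℕ} (h : ww κ t s ≠ 0) : s ∈ Nat.smoothNumbers t := by
  by_contra hs
  apply h
  unfold ww
  have h1 : w1 κ t s = 0 := by
    unfold w1
    rw [if_neg]
    rintro ⟨h2, h3⟩
    exact hs (Nat.mem_smoothNumbers_of_lt (by omega) h3)
  have h2 : gg κ t s = 0 := by
    unfold gg
    exact Set.indicator_of_notMem hs _
  have h3 : s ≠ 1 := by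
    rintro rfl
    exact hs (one_mem t)
  rw [h1, h2, if_neg h3]
  simp

section

variable {κ : ℝ} {t : ℕ} (h0 : 0 < κ) (h1 : κ ≤ 1 / 20) (ht : 2 ≤ t)

include h0 h1 ht

theorem e1_abs : |t * e1 κ t| ≤ 3 * kk κ t := by
  have hT : (0 : ℝ) < t := by exact_mod_cast (by omega : 0 < t)
  have h2 := basic h0 h1 (d := 1) (t := t) le_rfl (by omega)
  have h3 : AA κ t 1 + ((1 : ℕ) : ℝ) ^ (κ - 1) * (t : ℝ) ^ (-κ) - 1 / ((1 : ℕ) : ℝ) = e1 κ t := by
    unfold e1
    simp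
  rw [h3, le_div_iff₀ hT] at h2
  rw [abs_mul, abs_of_pos hT]
  linarith

theorem ww_total : HasSum (ww κ t) t := by
  have h2 := ww_dvd (by linarith : κ < 1) (one_mem t) (by omega : 1 ≤ t)
  have h3 : (fun s => if 1 ∣ s then ww κ t s else 0) = ww κ t := by
    funext s
    simp
  rw [h3] at h2
  have h4 : t * (AA κ t 1 + ((1 : ℕ) : ℝ) ^ (κ - 1) * (t : ℝ) ^ (-κ)) - (if (1 : ℕ) = 1 then t * e1 κ t else 0)
      = (t : ℝ) := by
    unfold e1
    simp
    ring
  rw [h4] at h2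
  exact h2

theorem ww_mult {d : ℕ} (hd : d ∈ Nat.smoothNumbers t) (hd1 : d ≠ 1) :
    mult (ww κ t) d = t * (AA κ t d + (d : ℝ) ^ (κ - 1) * (t : ℝ) ^ (-κ)) := by
  have h2 := (ww_dvd (by linarith : κ < 1) hd (by omega : 1 ≤ t)).tsum_eq
  rw [if_neg hd1, sub_zero] at h2
  exact h2

theorem ww_mult_one : mult (ww κ t) 1 = t := by
  have h2 := (ww_total h0 h1 ht).tsum_eq
  unfold mult
  simpa using h2

/-- the counts are close to `t / d` for `d < t` -/
theorem ww_close {d : ℕ} (hd : 1 ≤ d) (hdt : d < t) : |mult (ww κ t) d - t / d| ≤ 3 * kk κ t := by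
  have hT : (0 : ℝ) < t := by exact_mod_cast (by omega : 0 < t)
  have hk := kk_pos h0 h1 (by omega : 1 ≤ t)
  by_cases hd1 : d = 1
  · subst hd1
    rw [ww_mult_one h0 h1 ht]
    simp
    exact hk.le
  · rw [ww_mult h0 h1 ht (Nat.mem_smoothNumbers_of_lt (by omega) hdt) hd1]
    have h2 := basic h0 h1 hd hdt
    rw [le_div_iff₀ hT] at h2
    have h3 : t * (AA κ t d + (d : ℝ) ^ (κ - 1) * (t : ℝ) ^ (-κ)) - t / d =
        (AA κ t d + (d : ℝ) ^ (κ - 1) * (t : ℝ) ^ (-κ) - 1 / d) * t := by ring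
    rw [h3, abs_mul, abs_of_pos hT]
    exact h2

/-- the counts for `d ≥ t` -/
theorem ww_large_smooth {d : ℕ} (hd : d ∈ Nat.smoothNumbers t) (hdt : t ≤ d) :
    0 ≤ mult (ww κ t) d ∧ mult (ww κ t) d ≤ 1 := by
  have hT : (0 : ℝ) < t := by exact_mod_cast (by omega : 0 < t)
  have hD : (0 : ℝ) < d := by exact_mod_cast (by omega : 0 < d)
  rw [ww_mult h0 h1 ht hd (by omega)]
  have h2 : AA κ t d = 0 := by
    unfold AA
    rw [Nat.div_eq_of_lt (by omega)]
    simp [SS]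
  rw [h2, zero_add]
  have h3 : t * ((d : ℝ) ^ (κ - 1) * (t : ℝ) ^ (-κ)) = ((d : ℝ) / t) ^ (κ - 1) := by
    rw [Real.div_rpow hD.le hT.le, Real.rpow_sub_one hT.ne', Real.rpow_neg hT.le]
    field_simp
  rw [h3]
  refine ⟨by positivity, Real.rpow_le_one_of_one_le_of_nonpos ?_ (by linarith)⟩
  rw [one_le_div hT]
  exact_mod_cast hdt

theorem ww_large {d : ℕ} (hdt : t ≤ d) : mult (ww κ t) d ≤ 1 := by
  by_cases hd : d ∈ Nat.smoothNumbers t
  · exact (ww_large_smooth h0 h1 ht hd hdt).2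
  · have h2 : mult (ww κ t) d = 0 := by
      unfold mult
      have h3 : (fun s => if d ∣ s then ww κ t s else 0) = fun _ => (0 : ℝ) := by
        funext s
        by_cases hs : d ∣ s
        · rw [if_pos hs]
          by_contra h4
          exact hd (Nat.mem_smoothNumbers_of_dvd (ww_smooth h4) hs)
        · rw [if_neg hs]
      rw [h3, tsum_zero]
    rw [h2]
    exact zero_le_one

theorem nu_nonneg {s : ℕ} (hs : 1 ≤ s) (hst : s ≤ t) : 0 ≤ nu κ t s := by
  have hT : (0 : ℝ) < t := by exact_mod_cast (by omega : 0 < t)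
  have hS : (0 : ℝ) < s := by exact_mod_cast (by omega : 0 < s)
  have hk := kk_pos h0 h1 (by omega : 1 ≤ t)
  have hg := EE_le_one h0 (by linarith) (by omega : 1 ≤ t)
  unfold nu
  apply mul_nonneg hk.le
  have h2 : (t : ℝ) ^ (κ - 1) ≤ (s : ℝ) ^ (κ - 1) :=
    Real.rpow_le_rpow_of_nonpos hS (by exact_mod_cast hst) (by linarith)
  have h3 : (t : ℝ) ^ (κ - 1) * (t : ℝ) ^ (-κ) = 1 / t := by
    rw [← Real.rpow_add hT, show κ - 1 + -κ = -1 by ring, Real.rpow_neg_one, one_div]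
  have h4 : (t : ℝ) ^ (κ - 1) * (t : ℝ) ^ (-κ) ≤ (s : ℝ) ^ (κ - 1) * (t : ℝ) ^ (-κ) :=
    mul_le_mul_of_nonneg_right h2 (by positivity)
  have h5 : EE κ t / t ≤ 1 / t := div_le_div_of_nonneg_right hg hT.le
  linarith

theorem nu_le {s : ℕ} (hs : 1 ≤ s) (hst : s ≤ t) : nu κ t s ≤ kk κ t / s := by
  have hT : (0 : ℝ) < t := by exact_mod_cast (by omega : 0 < t)
  have hS : (0 : ℝ) < s := by exact_mod_cast (by omega : 0 < s)
  have hk := kk_pos h0 h1 (by omega : 1 ≤ t)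
  have hg := EE_nonneg h0 (by linarith) (by omega : 1 ≤ t)
  unfold nu
  rw [div_eq_mul_one_div (kk κ t)]
  apply mul_le_mul_of_nonneg_left _ hk.le
  have h2 : (s : ℝ) ^ (κ - 1) * (t : ℝ) ^ (-κ) = ((s : ℝ) / t) ^ κ * (1 / s) := by
    rw [Real.div_rpow hS.le hT.le, Real.rpow_sub_one hS.ne', Real.rpow_neg hT.le]
    field_simp
  have h3 : ((s : ℝ) / t) ^ κ ≤ 1 :=
    Real.rpow_le_one (by positivity) (by rw [div_le_one hT]; exact_mod_cast hst) h0.le
  have h4 : ((s : ℝ) / t) ^ κ * (1 / s) ≤ 1 * (1 / s) := mul_le_mul_of_nonneg_right h3 (by positivity)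
  have h5 : 0 ≤ EE κ t / t := by positivity
  linarith

theorem w1_nonneg (s : ℕ) : 0 ≤ w1 κ t s := by
  unfold w1
  split_ifs with h
  · exact mul_nonneg (Nat.cast_nonneg _) (nu_nonneg h0 h1 ht h.1 h.2.le)
  · exact le_rfl

theorem ww_nonneg (h5 : 5 ≤ (t : ℝ) ^ (1 - κ)) (s : ℕ) : 0 ≤ ww κ t s := by
  have hT : (0 : ℝ) < t := by exact_mod_cast (by omega : 0 < t)
  have hZ := ZZ_pos (by linarith : κ < 1) t
  have hg := gg_nonneg κ t s
  have hw := w1_nonneg h0 h1 ht s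
  have h2 : 0 ≤ (t : ℝ) ^ (1 - κ) / ZZ κ t * gg κ t s := by positivity
  unfold ww
  by_cases hs : s = 1
  · rw [if_pos hs]
    have h3 := e1_abs h0 h1 ht
    have h4 := (abs_le.1 h3).2
    have hk := kk_pos h0 h1 (by omega : 1 ≤ t)
    have hg1 := EE_le_one h0 (by linarith) (by omega : 1 ≤ t)
    have h6 : w1 κ t s = kk κ t * ((t : ℝ) ^ (1 - κ) - EE κ t) := by
      rw [hs]
      unfold w1 nu
      rw [if_pos ⟨le_rfl, by omega⟩, sub_eq_add_neg (1 : ℝ) κ, Real.rpow_add hT, Real.rpow_one]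
      simp only [Nat.cast_one, Real.one_rpow, one_mul]
      field_simp
    have h7 : kk κ t * 4 ≤ w1 κ t s := by
      rw [h6]
      apply mul_le_mul_of_nonneg_left _ hk.le
      linarith
    linarith
  · rw [if_neg hs, sub_zero]
    linarith

end

end Pool.Agent.Helper36.CB
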