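import Pool.Agent.Helper36.CB.Law

/-!
MP_56e989_nt, CountingBarrier: large values and distinct values of the law; choice of the parameter.
-/

set_option autoImplicit false

namespace Pool.Agent.Helper36.CB

theorem sum_inv {m t : ℕ} (hm : 1 ≤ m) (hmt : m ≤ t) :
    ∑ s ∈ Finset.Ico m t, (1 : ℝ) / s ≤ 1 / m - 1 / t + Real.log t - Real.log m := by
  induction t, hmt using Nat.le_induction with
  | base => simp
  | succ t hmt ih =>
    rw [Finset.sum_Ico_succ_top hmt]
    have hT : (0 : ℝ) < t := by exact_mod_cast (by omega : 0 < t)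
    have h2 := Real.one_sub_inv_le_log_of_pos (x := ((t + 1 : ℕ) : ℝ) / t) (by positivity)
    rw [Real.log_div (by positivity) hT.ne'] at h2
    have h3 : 1 - (((t + 1 : ℕ) : ℝ) / t)⁻¹ = 1 / ((t + 1 : ℕ) : ℝ) := by
      rw [inv_div]
      push_cast
      field_simp
      ring
    rw [h3] at h2
    linarith

section

variable {κ : ℝ} {t : ℕ} (h0 : 0 < κ) (h1 : κ ≤ 1 / 20) (ht : 2 ≤ t)

include h0 h1 ht

theorem ww_above (h5 : 5 ≤ (t : ℝ) ^ (1 - κ)) {K : ℝ} (hK : 1 ≤ K) :
    above (ww κ t) (t / K) ≤ t * kk κ t * (1 + Real.log K) + (t : ℝ) ^ (1 - κ) + 3 * kk κ t := by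
  have hT : (0 : ℝ) < t := by exact_mod_cast (by omega : 0 < t)
  have hk := kk_pos h0 h1 (by omega : 1 ≤ t)
  have hZ := ZZ_pos (by linarith : κ < 1) t
  have hn := ww_nonneg h0 h1 ht h5
  obtain ⟨m, hm⟩ : ∃ m, m = ⌈(t : ℝ) / K⌉₊ := ⟨_, rfl⟩
  have hx : (0 : ℝ) < t / K := by positivity
  have hm1 : 1 ≤ m := by
    rw [hm]
    exact Nat.one_le_iff_ne_zero.2 (Nat.ceil_pos.2 hx).ne'
  have hm2 : m ≤ t := by
    rw [hm]
    exact Nat.ceil_le.2 (div_le_self hT.le hK)
  have hm3 : (t : ℝ) / K ≤ m := by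
    rw [hm]
    exact Nat.le_ceil _
  have hM : (0 : ℝ) < m := by exact_mod_cast hm1
  have hS1 : HasSum (fun s : ℕ => if s ∈ Finset.Ico m t then (t : ℝ) * (kk κ t / s) else 0)
      (∑ s ∈ Finset.Ico m t, (t : ℝ) * (kk κ t / s)) := by
    have h2 : HasSum (fun s : ℕ => if s ∈ Finset.Ico m t then (t : ℝ) * (kk κ t / s) else 0)
        (∑ s ∈ Finset.Ico m t, if s ∈ Finset.Ico m t then (t : ℝ) * (kk κ t / s) else 0) :=
      hasSum_sum_of_ne_finset_zero (fun b hb => if_neg hb)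
    rwa [Finset.sum_congr rfl (fun s hs => if_pos hs)] at h2
  have hS2 := ((gg_summable (by linarith : κ < 1) t).hasSum).mul_left ((t : ℝ) ^ (1 - κ) / ZZ κ t)
  have hS3 : HasSum (fun s : ℕ => if s = 1 then 3 * kk κ t else 0) (3 * kk κ t) := hasSum_ite_eq 1 _
  have hS := (hS1.add hS2).add hS3
  have hpt : ∀ s : ℕ, (if (t : ℝ) / K ≤ (s : ℝ) then ww κ t s else 0) ≤
      (if s ∈ Finset.Ico m t then (t : ℝ) * (kk κ t / s) else 0) +
        (t : ℝ) ^ (1 - κ) / ZZ κ t * gg κ t s + (if s = 1 then 3 * kk κ t else 0) := by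
    intro s
    have g0 := gg_nonneg κ t s
    have g1 : 0 ≤ (t : ℝ) ^ (1 - κ) / ZZ κ t * gg κ t s := by positivity
    have g2 : 0 ≤ (if s = 1 then 3 * kk κ t else 0) := by split_ifs <;> linarith
    have g3 : 0 ≤ (if s ∈ Finset.Ico m t then (t : ℝ) * (kk κ t / s) else 0) := by
      split_ifs
      · positivity
      · exact le_rfl
    by_cases hs : (t : ℝ) / K ≤ (s : ℝ)
    · rw [if_pos hs]
      have hms : m ≤ s := by
        rw [hm]
        exact Nat.ceil_le.2 hs
      have a1 : w1 κ t s ≤ (if s ∈ Finset.Ico m t then (t : ℝ) * (kk κ t / s) else 0) := by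
        unfold w1
        by_cases hst : 1 ≤ s ∧ s < t
        · rw [if_pos hst, if_pos (Finset.mem_Ico.2 ⟨hms, hst.2⟩)]
          exact mul_le_mul_of_nonneg_left (nu_le h0 h1 ht hst.1 hst.2.le) hT.le
        · rw [if_neg hst]
          exact g3
      have a2 : -(if s = 1 then t * e1 κ t else 0) ≤ (if s = 1 then 3 * kk κ t else 0) := by
        have h3 := (abs_le.1 (e1_abs h0 h1 ht)).1
        split_ifs
        · linarith
        · simp
      have a3 : ww κ t s = w1 κ t s + (t : ℝ) ^ (1 - κ) / ZZ κ t * gg κ t s +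
          -(if s = 1 then t * e1 κ t else 0) := rfl
      rw [a3]
      exact add_le_add (add_le_add a1 le_rfl) a2
    · rw [if_neg hs]
      positivity
  have hFs : Summable (fun s : ℕ => if (t : ℝ) / K ≤ (s : ℝ) then ww κ t s else 0) := by
    refine Summable.of_nonneg_of_le (fun s => ?_) (fun s => ?_) (ww_total h0 h1 ht).summable
    · split_ifs
      · exact hn s
      · exact le_rfl
    · split_ifs
      · exact le_rfl
      · exact hn s
  have hfin : above (ww κ t) (t / K) ≤ ∑ s ∈ Finset.Ico m t, (t : ℝ) * (kk κ t / s) +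
      (t : ℝ) ^ (1 - κ) / ZZ κ t * (∑' s, gg κ t s) + 3 * kk κ t := by
    have h2 := hFs.tsum_le_tsum hpt hS.summable
    rw [hS.tsum_eq] at h2
    exact h2
  have e2 : (t : ℝ) ^ (1 - κ) / ZZ κ t * (∑' s, gg κ t s) = (t : ℝ) ^ (1 - κ) := by
    show (t : ℝ) ^ (1 - κ) / ZZ κ t * ZZ κ t = _
    field_simp
  have e3 : ∑ s ∈ Finset.Ico m t, (t : ℝ) * (kk κ t / s) = t * kk κ t * ∑ s ∈ Finset.Ico m t, (1 : ℝ) / s := by
    rw [Finset.mul_sum]
    refine Finset.sum_congr rfl fun s _ => ?_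
    ring
  have e4 : ∑ s ∈ Finset.Ico m t, (1 : ℝ) / s ≤ 1 + Real.log K := by
    have h2 := sum_inv hm1 hm2
    have h3 : (1 : ℝ) / m ≤ 1 := by
      rw [div_le_one hM]
      exact_mod_cast hm1
    have h4 : (0 : ℝ) ≤ 1 / t := by positivity
    have h6 : Real.log t ≤ Real.log K + Real.log m := by
      rw [← Real.log_mul (by positivity) hM.ne']
      apply Real.log_le_log hT
      rw [div_le_iff₀ (by linarith)] at hm3
      linarith
    linarith
  rw [e2, e3] at hfin
  have e5 : t * kk κ t * ∑ s ∈ Finset.Ico m t, (1 : ℝ) / s ≤ t * kk κ t * (1 + Real.log K) :=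
    mul_le_mul_of_nonneg_left e4 (by positivity)
  linarith

end

/-- distinct values -/
theorem distinct_le {w : ℕ → ℝ} (hn : ∀ s, 0 ≤ w s) (hs : Summable w) (h0 : w 0 = 0) {x : ℝ} (hx : 0 < x) :
    distinct w ≤ x + above w x := by
  obtain ⟨m, hm⟩ : ∃ m, m = ⌈x⌉₊ := ⟨_, rfl⟩
  have hS1 : HasSum (fun s : ℕ => if s ∈ Finset.Ico 1 m then (1 : ℝ) else 0)
      (∑ _s ∈ Finset.Ico 1 m, (1 : ℝ)) := by
    have h2 : HasSum (fun s : ℕ => if s ∈ Finset.Ico 1 m then (1 : ℝ) else 0)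
        (∑ s ∈ Finset.Ico 1 m, if s ∈ Finset.Ico 1 m then (1 : ℝ) else 0) :=
      hasSum_sum_of_ne_finset_zero (fun b hb => if_neg hb)
    rwa [Finset.sum_congr rfl (fun s hs => if_pos hs)] at h2
  have hF : ∀ s : ℕ, 0 ≤ (if x ≤ (s : ℝ) then w s else 0) := by
    intro s
    split_ifs
    · exact hn s
    · exact le_rfl
  have hFs : Summable (fun s : ℕ => if x ≤ (s : ℝ) then w s else 0) := by
    refine Summable.of_nonneg_of_le hF (fun s => ?_) hs
    split_ifs
    · exact le_rfl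
    · exact hn s
  have hpt : ∀ s : ℕ, min (w s) 1 ≤ (if s ∈ Finset.Ico 1 m then (1 : ℝ) else 0) +
      (if x ≤ (s : ℝ) then w s else 0) := by
    intro s
    by_cases hsx : x ≤ (s : ℝ)
    · rw [if_pos hsx]
      have h3 : (0 : ℝ) ≤ (if s ∈ Finset.Ico 1 m then (1 : ℝ) else 0) := by split_ifs <;> norm_num
      linarith [min_le_left (w s) 1]
    · rw [if_neg hsx, add_zero]
      by_cases hs0 : s = 0
      · subst hs0
        rw [h0, if_neg (by simp)]
        simp
      · rw [if_pos]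
        · exact min_le_right _ _
        · rw [Finset.mem_Ico]
          refine ⟨by omega, ?_⟩
          rw [hm, Nat.lt_ceil]
          exact not_le.1 hsx
  have hmin : Summable (fun s : ℕ => min (w s) 1) :=
    Summable.of_nonneg_of_le (fun s => le_min (hn s) zero_le_one) (fun s => min_le_left _ _) hs
  have h2 := hmin.tsum_le_tsum hpt (hS1.summable.add hFs)
  rw [hS1.summable.tsum_add hFs, hS1.tsum_eq] at h2
  have h3 : ∑ _s ∈ Finset.Ico 1 m, (1 : ℝ) ≤ x := by
    rw [Finset.sum_const, Nat.card_Ico, nsmul_eq_mul, mul_one]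
    have h4 := Nat.ceil_lt_add_one hx.le
    rw [← hm] at h4
    have h5 : 1 ≤ m := by
      rw [hm]
      exact Nat.one_le_iff_ne_zero.2 (Nat.ceil_pos.2 hx).ne'
    rw [Nat.cast_sub h5]
    push_cast
    linarith
  unfold distinct above
  linarith

theorem exists_law : ∃ t₀ : ℕ, ∀ t : ℕ, t₀ ≤ t → ∃ w : ℕ → ℝ, Counts t w ∧
    (∀ d : ℕ, 1 ≤ d → d < t → |mult w d - t / d| ≤ 4 * (Real.log (Real.log t) / Real.log t)) ∧
    distinct w ≤ 15 * (t * Real.log (Real.log t) ^ 2 / Real.log t) ∧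
    ∀ K : ℝ, 1 ≤ K → above w (t / K) ≤
      7 * (t * (1 + Real.log K) * Real.log (Real.log t) / Real.log t) := by
  have hev := (Real.tendsto_log_atTop.comp tendsto_natCast_atTop_atTop).eventually_ge_atTop (1600 : ℝ)
  obtain ⟨t₀, ht₀⟩ := Filter.eventually_atTop.1 hev
  refine ⟨max t₀ 2, fun t ht => ?_⟩
  have hL : 1600 ≤ Real.log t := ht₀ t ((le_max_left _ _).trans ht)
  have ht2 : 2 ≤ t := (le_max_right _ _).trans ht
  have hT : (0 : ℝ) < t := by exact_mod_cast (by omega : 0 < t)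
  have hT1 : (1 : ℝ) ≤ t := by exact_mod_cast (by omega : 1 ≤ t)
  obtain ⟨L, hLdef⟩ : ∃ L, L = Real.log t := ⟨_, rfl⟩
  rw [← hLdef] at hL ⊢
  have hL0 : 0 < L := by linarith
  have hl1 : 1 ≤ Real.log L := by
    rw [Real.le_log_iff_exp_le hL0]
    linarith [Real.exp_one_lt_d9]
  obtain ⟨κ, hκ⟩ : ∃ κ, κ = Real.log L / L := ⟨_, rfl⟩
  have h0 : 0 < κ := by
    rw [hκ]
    positivity
  have hs1 : 0 ≤ √L := Real.sqrt_nonneg L
  have hs2 : √L * √L = L := Real.mul_self_sqrt hL0.le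
  have hs3 : 40 ≤ √L := by
    rw [Real.le_sqrt' (by norm_num)]
    linarith
  have h1 : κ ≤ 1 / 20 := by
    rw [hκ, div_le_iff₀ hL0]
    have h2 : Real.log L = 2 * Real.log (√L) := by
      conv_lhs => rw [← hs2]
      rw [Real.log_mul (by linarith) (by linarith)]
      ring
    have h3 := Real.log_le_sub_one_of_pos (show 0 < √L by linarith)
    rw [h2]
    nlinarith
  have hpow : (t : ℝ) ^ (1 - κ) = t / L := by
    have h2 : (t : ℝ) ^ κ = L := by
      rw [Real.rpow_def_of_pos hT, ← hLdef, hκ, mul_div_cancel₀ _ hL0.ne', Real.exp_log hL0]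
    rw [Real.rpow_sub hT, Real.rpow_one, h2]
  have hexp : (t : ℝ) = Real.exp L := by rw [hLdef, Real.exp_log hT]
  have h5 : 5 ≤ (t : ℝ) ^ (1 - κ) := by
    rw [hpow, le_div_iff₀ hL0, hexp]
    have h2 := Real.quadratic_le_exp_of_nonneg hL0.le
    nlinarith
  have hk0 := kk_pos h0 h1 (by omega : 1 ≤ t)
  have hk := kk_le h0 h1 (by omega : 1 ≤ t)
  have hLk : 1 / L ≤ κ := by
    rw [hκ]
    exact div_le_div_of_nonneg_right hl1 hL0.le
  have hab : ∀ K : ℝ, 1 ≤ K → above (ww κ t) (t / K) ≤ 7 * (t * (1 + Real.log K) * Real.log L / L) := by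
    intro K hK
    have h2 := ww_above h0 h1 ht2 h5 hK
    rw [hpow] at h2
    have h3 : 0 ≤ Real.log K := Real.log_nonneg hK
    have h4 : t * kk κ t * (1 + Real.log K) ≤ t * (10 / 9 * κ) * (1 + Real.log K) := by gcongr
    have h6 : (t : ℝ) / L ≤ t * κ * (1 + Real.log K) := by
      calc (t : ℝ) / L = t * (1 / L) * 1 := by ring
        _ ≤ t * κ * (1 + Real.log K) := by
          gcongr
          linarith
    have h7 : 3 * kk κ t ≤ 4 * (t * κ * (1 + Real.log K)) := by
      calc 3 * kk κ t ≤ 3 * (10 / 9 * κ) := by linarith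
        _ ≤ 4 * (1 * κ * 1) := by linarith
        _ ≤ 4 * (t * κ * (1 + Real.log K)) := by
          gcongr
          linarith
    have h8 : 7 * (t * (1 + Real.log K) * Real.log L / L) = 7 * (t * κ * (1 + Real.log K)) := by
      rw [hκ]
      ring
    have h9 : 0 ≤ t * κ * (1 + Real.log K) := by positivity
    rw [h8]
    have h10 : t * (10 / 9 * κ) * (1 + Real.log K) = 10 / 9 * (t * κ * (1 + Real.log K)) := by ring
    linarith
  refine ⟨ww κ t, ⟨ww_nonneg h0 h1 ht2 h5, fun s hs => ww_smooth hs, ww_total h0 h1 ht2, ?_, ?_⟩, ?_, ?_, hab⟩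
  · intro d hd
    have hd0 := Nat.ne_zero_of_mem_smoothNumbers hd
    by_cases hdt : d < t
    · have h2 := ww_close h0 h1 ht2 (by omega) hdt
      linarith
    · push Not at hdt
      have h2 := ww_large_smooth h0 h1 ht2 hd hdt
      have hD : (0 : ℝ) < d := by exact_mod_cast (by omega : 0 < d)
      have h3 : (t : ℝ) / d ≤ 1 := by
        rw [div_le_one hD]
        exact_mod_cast hdt
      have h4 : (0 : ℝ) ≤ t / d := by positivity
      rw [abs_le]
      constructor <;> linarith [h2.1, h2.2]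
  · intro d hd
    exact ww_large h0 h1 ht2 hd
  · intro d hd hdt
    have h2 := ww_close h0 h1 ht2 hd hdt
    rw [← hκ]
    linarith
  · have hz : ww κ t 0 = 0 := by
      by_contra h2
      exact Nat.ne_zero_of_mem_smoothNumbers (ww_smooth h2) rfl
    have h2 := distinct_le (ww_nonneg h0 h1 ht2 h5) (ww_total h0 h1 ht2).summable hz
      (show (0 : ℝ) < t / L by positivity)
    have h3 := hab L (by linarith)
    have h4 : (t : ℝ) / L ≤ t * Real.log L ^ 2 / L := by
      apply div_le_div_of_nonneg_right _ hL0.le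
      exact le_mul_of_one_le_right hT.le (one_le_pow₀ hl1)
    have h6 : t * (1 + Real.log L) * Real.log L / L ≤ 2 * (t * Real.log L ^ 2 / L) := by
      rw [← mul_div_assoc]
      apply div_le_div_of_nonneg_right _ hL0.le
      nlinarith [mul_nonneg hT.le (by linarith : (0 : ℝ) ≤ Real.log L - 1),
        mul_nonneg (mul_nonneg hT.le (by linarith : (0 : ℝ) ≤ Real.log L - 1)) (by linarith : (0 : ℝ) ≤ Real.log L)]
    linarith

end Pool.Agent.Helper36.CB
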