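import Pool.Agent.Helper36.CB.Defs
import Pool.Agent.Helper47.EG.S

/-!
MP_56e989_nt, CountingBarrier: the numbers `cnt n t s` satisfy the constraints.
-/

set_option autoImplicit false

open N298f9e75

namespace Pool.Agent.Helper36.CB

/-- the number of `m` in `[n+1, n+t]` with `t`-smooth component `s` -/
noncomputable def cnt (n t s : ℕ) : ℝ :=
  (((Finset.Icc (n + 1) (n + t)).filter fun m => smoothComponent t m = s).card : ℝ)

theorem sc_mem (t m : ℕ) : smoothComponent t m ∈ Nat.smoothNumbers t :=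
  Nat.prod_mem_smoothNumbers m t

theorem cnt_sum (n t : ℕ) (P : ℕ → Prop) [DecidablePred P] :
    HasSum (fun s => if P s then cnt n t s else 0)
      (((Finset.Icc (n + 1) (n + t)).filter fun m => P (smoothComponent t m)).card : ℝ) := by
  classical
  set I := Finset.Icc (n + 1) (n + t) with hI
  have h1 : ((I.filter fun m => P (smoothComponent t m)).card : ℝ) =
      ∑ s ∈ I.image (smoothComponent t), if P s then cnt n t s else 0 := by
    rw [Finset.card_eq_sum_card_fiberwise (f := smoothComponent t) (t := I.image (smoothComponent t))]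
    · push_cast
      refine Finset.sum_congr rfl fun s _ => ?_
      by_cases hs : P s
      · rw [if_pos hs, cnt, ← hI]
        congr 2
        ext m
        simp only [Finset.mem_filter]
        constructor
        · rintro ⟨⟨a, _⟩, b⟩
          exact ⟨a, b⟩
        · rintro ⟨a, b⟩
          exact ⟨⟨a, by rw [b]; exact hs⟩, b⟩
      · rw [if_neg hs]
        norm_cast
        rw [Finset.card_eq_zero, Finset.filter_eq_empty_iff]
        intro m hm hms
        rw [Finset.mem_filter, hms] at hm
        exact hs hm.2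
    · intro m hm
      exact Finset.mem_coe.2 (Finset.mem_image_of_mem _ (Finset.mem_filter.1 (Finset.mem_coe.1 hm)).1)
  rw [h1]
  refine hasSum_sum_of_ne_finset_zero fun s hs => ?_
  have h2 : cnt n t s = 0 := by
    unfold cnt
    rw [← hI]
    norm_cast
    rw [Finset.card_eq_zero, Finset.filter_eq_empty_iff]
    intro m hm hms
    exact hs (Finset.mem_image.2 ⟨m, hm, hms⟩)
  rw [h2, ite_self]

theorem cnt_mult (n t d : ℕ) : mult (cnt n t) d =
    (((Finset.Icc (n + 1) (n + t)).filter fun m => d ∣ smoothComponent t m).card : ℝ) :=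
  (cnt_sum n t fun s => d ∣ s).tsum_eq

theorem card_dvd (n t d : ℕ) :
    |(((Finset.Icc (n + 1) (n + t)).filter fun m => d ∣ m).card : ℝ) - t / d| ≤ 1 := by
  rcases Nat.eq_zero_or_pos d with rfl | hd
  · have h1 : (Finset.Icc (n + 1) (n + t)).filter (fun m => 0 ∣ m) = ∅ := by
      rw [Finset.filter_eq_empty_iff]
      intro m hm h
      rw [Finset.mem_Icc] at hm
      rw [zero_dvd_iff] at h
      omega
    rw [h1]
    simp
  have hD : (0 : ℝ) < d := by exact_mod_cast hd
  have h1 : ((Finset.Icc (n + 1) (n + t)).filter fun m => d ∣ m).card + n / d = (n + t) / d := by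
    rw [← Nat.Ioc_filter_dvd_card_eq_div n d, ← Nat.Ioc_filter_dvd_card_eq_div (n + t) d,
      ← Finset.card_union_of_disjoint]
    · congr 1
      ext m
      simp only [Finset.mem_union, Finset.mem_filter, Finset.mem_Icc, Finset.mem_Ioc]
      constructor
      · rintro (⟨⟨a, b⟩, c⟩ | ⟨⟨a, b⟩, c⟩)
        · exact ⟨⟨by omega, b⟩, c⟩
        · exact ⟨⟨a, by omega⟩, c⟩
      · rintro ⟨⟨a, b⟩, c⟩
        by_cases h : m ≤ n
        · exact Or.inr ⟨⟨a, h⟩, c⟩
        · exact Or.inl ⟨⟨by omega, b⟩, c⟩
    · rw [Finset.disjoint_left]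
      intro m hm hm'
      rw [Finset.mem_filter, Finset.mem_Icc] at hm
      rw [Finset.mem_filter, Finset.mem_Ioc] at hm'
      omega
  have h2 : ((((Finset.Icc (n + 1) (n + t)).filter fun m => d ∣ m).card : ℕ) : ℝ) =
      (((n + t) / d : ℕ) : ℝ) - ((n / d : ℕ) : ℝ) := by
    rw [← h1]
    push_cast
    ring
  rw [h2]
  have a1 : (((n + t) / d : ℕ) : ℝ) ≤ ((n + t : ℕ) : ℝ) / d := Nat.cast_div_le
  have a2 : ((n / d : ℕ) : ℝ) ≤ (n : ℝ) / d := Nat.cast_div_le
  have a3 : ((n + t : ℕ) : ℝ) / d < (((n + t) / d : ℕ) : ℝ) + 1 := by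
    rw [div_lt_iff₀ hD]
    have := Nat.lt_mul_div_succ (n + t) hd
    have h3 : ((n + t : ℕ) : ℝ) < ((d * ((n + t) / d + 1) : ℕ) : ℝ) := by exact_mod_cast this
    have h4 : ((d * ((n + t) / d + 1) : ℕ) : ℝ) = (d : ℝ) * ((((n + t) / d : ℕ) : ℝ) + 1) := by
      rw [Nat.cast_mul]
      congr 1
      exact Nat.cast_succ _
    rw [h4] at h3
    linarith
  have a4 : (n : ℝ) / d < ((n / d : ℕ) : ℝ) + 1 := by
    rw [div_lt_iff₀ hD]
    have := Nat.lt_mul_div_succ n hd
    have h3 : ((n : ℕ) : ℝ) < ((d * (n / d + 1) : ℕ) : ℝ) := by exact_mod_cast this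
    have h4 : ((d * (n / d + 1) : ℕ) : ℝ) = (d : ℝ) * (((n / d : ℕ) : ℝ) + 1) := by
      rw [Nat.cast_mul]
      congr 1
      exact Nat.cast_succ _
    rw [h4] at h3
    linarith
  have a5 : ((n + t : ℕ) : ℝ) / d = n / d + t / d := by
    push_cast
    ring
  rw [abs_le]
  constructor <;> linarith

theorem dvd_sc_iff {t d m : ℕ} (hd : d ∈ Nat.smoothNumbers t) (hm : m ≠ 0) :
    d ∣ smoothComponent t m ↔ d ∣ m := by
  constructor
  · intro h
    exact h.trans (EG.S.sc_dvd_self t m hm)
  · intro h
    have h1 : smoothComponent t d = d :=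
      EG.S.sc_eq_self (Nat.ne_zero_of_mem_smoothNumbers hd) (Nat.mem_smoothNumbers'.1 hd)
    rw [← h1]
    exact EG.S.sc_dvd hm h

theorem cnt_counts (n t : ℕ) : Counts t (cnt n t) where
  nonneg s := Nat.cast_nonneg _
  smooth s hs := by
    by_contra h
    apply hs
    unfold cnt
    norm_cast
    rw [Finset.card_eq_zero, Finset.filter_eq_empty_iff]
    intro m _ hms
    exact h (hms ▸ sc_mem t m)
  total := by
    have h1 := cnt_sum n t fun _ => True
    simp only [if_true, Finset.filter_true, Nat.card_Icc] at h1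
    have h2 : n + t + 1 - (n + 1) = t := by omega
    rw [h2] at h1
    exact h1
  close d hd := by
    have h1 : (Finset.Icc (n + 1) (n + t)).filter (fun m => d ∣ smoothComponent t m) =
        (Finset.Icc (n + 1) (n + t)).filter (fun m => d ∣ m) := by
      refine Finset.filter_congr fun m hm => dvd_sc_iff hd ?_
      rw [Finset.mem_Icc] at hm
      omega
    rw [cnt_mult, h1]
    exact card_dvd n t d
  large d hd := by
    rw [cnt_mult]
    norm_cast
    rw [Finset.card_le_one]
    intro a ha b hb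
    rw [Finset.mem_filter, Finset.mem_Icc] at ha hb
    have h1 : d ∣ a := ha.2.trans (EG.S.sc_dvd_self t a (by omega))
    have h2 : d ∣ b := hb.2.trans (EG.S.sc_dvd_self t b (by omega))
    by_contra hab
    rcases Nat.lt_or_ge a b with h | h
    · have h3 := Nat.le_of_dvd (by omega) (Nat.dvd_sub h2 h1)
      omega
    · have h3 := Nat.le_of_dvd (by omega) (Nat.dvd_sub h1 h2)
      omega

theorem cnt_distinct (n t : ℕ) : distinct (cnt n t) = (f n t : ℝ) := by
  classical
  set I := Finset.Icc (n + 1) (n + t) with hI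
  have h1 : HasSum (fun s => min (cnt n t s) 1)
      (∑ s ∈ I.image (smoothComponent t), min (cnt n t s) 1) := by
    refine hasSum_sum_of_ne_finset_zero fun s hs => ?_
    have h2 : cnt n t s = 0 := by
      unfold cnt
      rw [← hI]
      norm_cast
      rw [Finset.card_eq_zero, Finset.filter_eq_empty_iff]
      intro m hm hms
      exact hs (Finset.mem_image.2 ⟨m, hm, hms⟩)
    rw [h2]
    exact min_eq_left zero_le_one
  have h2 : ∑ s ∈ I.image (smoothComponent t), min (cnt n t s) 1 = (f n t : ℝ) := by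
    have h3 : ∀ s ∈ I.image (smoothComponent t), min (cnt n t s) 1 = 1 := by
      intro s hs
      obtain ⟨m, hm, hms⟩ := Finset.mem_image.1 hs
      apply min_eq_right
      unfold cnt
      rw [← hI]
      norm_cast
      rw [Nat.one_le_iff_ne_zero, Finset.card_ne_zero]
      exact ⟨m, Finset.mem_filter.2 ⟨hm, hms⟩⟩
    rw [Finset.sum_congr rfl h3, Finset.sum_const, nsmul_eq_mul, mul_one]
    rfl
  unfold distinct
  rw [h1.tsum_eq, h2]

end Pool.Agent.Helper36.CB
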