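import Mathlib

/-!
MP_56e989_nt, CountingBarrier: power sums and the basic inequality.
-/

set_option autoImplicit false

namespace Pool.Agent.Helper36.CB

/-- tangent line inequality for the concave function `x ^ κ` -/
theorem tangent {κ x y : ℝ} (h0 : 0 ≤ κ) (h1 : κ ≤ 1) (hx : 0 < x) (hy : 0 ≤ y) :
    y ^ κ ≤ x ^ κ + κ * x ^ (κ - 1) * (y - x) := by
  have hs : -1 ≤ (y - x) / x := by
    rw [le_div_iff₀ hx]
    linarith
  have e1 : y = x * (1 + (y - x) / x) := by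
    field_simp
    ring
  have h2 := _root_.rpow_one_add_le_one_add_mul_self hs h0 h1
  have h3 : y ^ κ = x ^ κ * (1 + (y - x) / x) ^ κ := by
    conv_lhs => rw [e1]
    rw [Real.mul_rpow hx.le (by linarith)]
  have h4 : x ^ (κ - 1) = x ^ κ / x := Real.rpow_sub_one hx.ne' κ
  rw [h3, h4]
  have h5 : x ^ κ * (1 + (y - x) / x) ^ κ ≤ x ^ κ * (1 + κ * ((y - x) / x)) :=
    mul_le_mul_of_nonneg_left h2 (Real.rpow_nonneg hx.le _)
  have h6 : x ^ κ * (1 + κ * ((y - x) / x)) = x ^ κ + κ * (x ^ κ / x) * (y - x) := by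
    field_simp
  linarith

noncomputable def SS (κ : ℝ) (J : ℕ) : ℝ := ∑ j ∈ Finset.range J, ((j : ℝ) + 1) ^ (κ - 1)

noncomputable def EE (κ : ℝ) (J : ℕ) : ℝ := SS κ J - ((J : ℝ) ^ κ - 1) / κ

theorem EE_one {κ : ℝ} : EE κ 1 = 1 := by
  simp [EE, SS]

theorem EE_succ_le {κ : ℝ} (h0 : 0 < κ) (h1 : κ ≤ 1) {J : ℕ} :
    EE κ (J + 1) ≤ EE κ J := by
  have h2 := tangent h0.le h1 (x := (J : ℝ) + 1) (y := (J : ℝ)) (by positivity) (by positivity)
  unfold EE SS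
  rw [Finset.sum_range_succ]
  push_cast
  have h3 : ((J : ℝ) + 1) ^ (κ - 1) ≤ (((J : ℝ) + 1) ^ κ - (J : ℝ) ^ κ) / κ := by
    rw [le_div_iff₀ h0]
    nlinarith
  have h4 : (((J : ℝ) + 1) ^ κ - (J : ℝ) ^ κ) / κ =
      (((J : ℝ) + 1) ^ κ - 1) / κ - ((J : ℝ) ^ κ - 1) / κ := by ring
  linarith

theorem EE_succ_ge {κ : ℝ} (h0 : 0 < κ) (h1 : κ ≤ 1) {J : ℕ} (hJ : 1 ≤ J) :
    EE κ J - (J : ℝ) ^ (κ - 1) ≤ EE κ (J + 1) - ((J + 1 : ℕ) : ℝ) ^ (κ - 1) := by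
  have hJ' : (0 : ℝ) < J := by exact_mod_cast hJ
  have h2 := tangent h0.le h1 (x := (J : ℝ)) (y := (J : ℝ) + 1) hJ' (by positivity)
  unfold EE SS
  rw [Finset.sum_range_succ]
  push_cast
  have h3 : (((J : ℝ) + 1) ^ κ - (J : ℝ) ^ κ) / κ ≤ (J : ℝ) ^ (κ - 1) := by
    rw [div_le_iff₀ h0]
    nlinarith
  have h4 : (((J : ℝ) + 1) ^ κ - (J : ℝ) ^ κ) / κ =
      (((J : ℝ) + 1) ^ κ - 1) / κ - ((J : ℝ) ^ κ - 1) / κ := by ring
  linarith

theorem EE_anti {κ : ℝ} (h0 : 0 < κ) (h1 : κ ≤ 1) {J T : ℕ} (hT : J ≤ T) :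
    EE κ T ≤ EE κ J := by
  induction T, hT using Nat.le_induction with
  | base => exact le_rfl
  | succ m hm ih => exact (EE_succ_le h0 h1).trans ih

theorem EE_mono {κ : ℝ} (h0 : 0 < κ) (h1 : κ ≤ 1) {J T : ℕ} (hJ : 1 ≤ J) (hT : J ≤ T) :
    EE κ J - (J : ℝ) ^ (κ - 1) ≤ EE κ T - (T : ℝ) ^ (κ - 1) := by
  induction T, hT using Nat.le_induction with
  | base => exact le_rfl
  | succ m hm ih => exact ih.trans (EE_succ_ge h0 h1 (hJ.trans hm))

theorem EE_le_one {κ : ℝ} (h0 : 0 < κ) (h1 : κ ≤ 1) {T : ℕ} (hT : 1 ≤ T) : EE κ T ≤ 1 := by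
  have := EE_anti h0 h1 hT
  rwa [EE_one] at this

theorem EE_nonneg {κ : ℝ} (h0 : 0 < κ) (h1 : κ ≤ 1) {T : ℕ} (hT : 1 ≤ T) : 0 ≤ EE κ T := by
  have h2 := EE_mono h0 h1 le_rfl hT
  rw [EE_one] at h2
  have h3 : (0 : ℝ) ≤ (T : ℝ) ^ (κ - 1) := by positivity
  simp at h2
  linarith

/-- `κ / (1 - κ γ)` with `γ = EE κ t` -/
noncomputable def kk (κ : ℝ) (t : ℕ) : ℝ := κ / (1 - κ * EE κ t)

/-- the sum of the main part over the multiples of `d` below `t` -/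
noncomputable def AA (κ : ℝ) (t d : ℕ) : ℝ :=
  kk κ t * ((d : ℝ) ^ (κ - 1) * (t : ℝ) ^ (-κ) * SS κ ((t - 1) / d)
    - EE κ t * ((((t - 1) / d : ℕ) : ℝ) / t))

theorem kk_pos {κ : ℝ} (h0 : 0 < κ) (h1 : κ ≤ 1 / 20) {t : ℕ} (ht : 1 ≤ t) : 0 < kk κ t := by
  have h2 := EE_le_one h0 (by linarith) ht
  have h3 := EE_nonneg h0 (by linarith) ht
  unfold kk
  apply div_pos h0
  nlinarith

theorem kk_le {κ : ℝ} (h0 : 0 < κ) (h1 : κ ≤ 1 / 20) {t : ℕ} (ht : 1 ≤ t) :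
    kk κ t ≤ 10 / 9 * κ := by
  have h2 := EE_le_one h0 (by linarith) ht
  have h3 := EE_nonneg h0 (by linarith) ht
  have h4 : (9 : ℝ) / 10 ≤ 1 - κ * EE κ t := by nlinarith
  unfold kk
  rw [div_le_iff₀ (by linarith)]
  nlinarith

theorem basic {κ : ℝ} (h0 : 0 < κ) (h1 : κ ≤ 1 / 20) {t d : ℕ} (hd : 1 ≤ d) (hdt : d < t) :
    |AA κ t d + (d : ℝ) ^ (κ - 1) * (t : ℝ) ^ (-κ) - 1 / d| ≤ 3 * kk κ t / t := by
  have ht : 1 ≤ t := by omega
  have hk1 : κ ≤ 1 := by linarith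
  set J : ℕ := (t - 1) / d with hJ
  have hJ1 : 1 ≤ J := by
    rw [hJ, Nat.one_le_div_iff (by omega)]
    omega
  have hJt : J ≤ t := (Nat.div_le_self _ _).trans (Nat.sub_le _ _)
  have hJd : d * J ≤ t := by
    have := Nat.mul_div_le (t - 1) d
    rw [← hJ] at this
    omega
  have hJd2 : t ≤ d * J + d := by
    have := Nat.lt_mul_div_succ (t - 1) (show 0 < d by omega)
    rw [mul_add, mul_one, ← hJ] at this
    omega
  have hg1 := EE_le_one h0 hk1 ht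
  have hg0 := EE_nonneg h0 hk1 ht
  have hE1 := EE_anti h0 hk1 hJt
  have hE2 := EE_mono h0 hk1 hJ1 hJt
  set γ : ℝ := EE κ t with hγ
  set E : ℝ := EE κ J with hE
  have hSS : SS κ J = ((J : ℝ) ^ κ - 1) / κ + E := by
    rw [hE, EE]
    ring
  have hD : (0 : ℝ) < d := by exact_mod_cast hd
  have hD1 : (1 : ℝ) ≤ d := by exact_mod_cast hd
  have hT : (0 : ℝ) < t := by exact_mod_cast ht
  have hJr : (0 : ℝ) < J := by exact_mod_cast hJ1
  have hJd' : (d : ℝ) * J ≤ t := by exact_mod_cast hJd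
  have hJd2' : (t : ℝ) ≤ d * J + d := by exact_mod_cast hJd2
  set y : ℝ := (d : ℝ) ^ (κ - 1) * (t : ℝ) ^ (-κ) with hy
  set r : ℝ := (d : ℝ) * J / t with hr
  have hr0 : 0 < r := by positivity
  have hr1 : r ≤ 1 := by rw [hr, div_le_one hT]; exact hJd'
  have hr2 : 1 - r ≤ d / t := by
    rw [hr, sub_le_iff_le_add, ← add_div, le_div_iff₀ hT]
    linarith
  have hr3 : 1 / 2 ≤ r := by
    have h5 : (d : ℝ) / t ≤ r := by
      rw [hr]
      apply div_le_div_of_nonneg_right _ hT.le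
      have : (1 : ℝ) ≤ J := by exact_mod_cast hJ1
      nlinarith
    linarith
  have hyJ : y * (J : ℝ) ^ κ = r ^ κ / d := by
    rw [hy, hr, Real.div_rpow (by positivity) hT.le, Real.mul_rpow hD.le hJr.le,
      Real.rpow_sub_one hD.ne', Real.rpow_neg hT.le]
    field_simp
  have hyJ1 : y * (J : ℝ) ^ (κ - 1) = r ^ (κ - 1) / t := by
    have e1 : y * (J : ℝ) ^ (κ - 1) = r ^ κ / d / J := by
      rw [← hyJ, Real.rpow_sub_one hJr.ne']
      ring
    rw [e1, Real.rpow_sub_one hr0.ne']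
    rw [div_div, div_div]
    congr 1
    rw [hr]
    field_simp
  have hrk : r ^ (κ - 1) ≤ 2 := by
    have e1 : r ^ (κ - 1) ≤ (1 / 2 : ℝ) ^ (κ - 1) :=
      Real.rpow_le_rpow_of_nonpos (by norm_num) hr3 (by linarith)
    have e2 : (1 / 2 : ℝ) ^ (κ - 1) ≤ (1 / 2 : ℝ) ^ (-1 : ℝ) :=
      Real.rpow_le_rpow_of_exponent_ge (by norm_num) (by norm_num) (by linarith)
    have e3 : (1 / 2 : ℝ) ^ (-1 : ℝ) = 2 := by
      rw [Real.rpow_neg_one]
      norm_num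
    linarith
  have hrk0 : 0 < r ^ (κ - 1) := Real.rpow_pos_of_pos hr0 _
  have hy0 : 0 < y := by positivity
  -- the three error terms
  have t1 : r ^ κ ≤ 1 := Real.rpow_le_one hr0.le hr1 h0.le
  have t1' : 1 - r ^ κ ≤ 2 * κ * (d / t) := by
    have e1 := tangent h0.le hk1 hr0 (y := 1) zero_le_one
    rw [Real.one_rpow] at e1
    have e2 : κ * r ^ (κ - 1) * (1 - r) ≤ κ * 2 * (d / t) := by
      apply mul_le_mul _ hr2 (by linarith) (by linarith)
      exact mul_le_mul_of_nonneg_left hrk h0.le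
    linarith
  have a1 : (r ^ κ - 1) / d ≤ 0 := div_nonpos_of_nonpos_of_nonneg (by linarith) hD.le
  have a1' : -(2 * κ / t) ≤ (r ^ κ - 1) / d := by
    rw [le_div_iff₀ hD]
    have : -(2 * κ / t) * d = -(2 * κ * (d / t)) := by ring
    rw [this]
    linarith
  have a2 : 0 ≤ κ * y * (E - γ) := by
    have : 0 ≤ E - γ := by linarith
    positivity
  have a2' : κ * y * (E - γ) ≤ 2 * κ / t := by
    have e0 : (0 : ℝ) ≤ (t : ℝ) ^ (κ - 1) := by positivity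
    have e1 : E - γ ≤ (J : ℝ) ^ (κ - 1) := by linarith
    calc κ * y * (E - γ) ≤ κ * y * (J : ℝ) ^ (κ - 1) :=
          mul_le_mul_of_nonneg_left e1 (by positivity)
      _ = κ * (r ^ (κ - 1) / t) := by rw [mul_assoc, hyJ1]
      _ ≤ κ * (2 / t) := by gcongr
      _ = 2 * κ / t := by ring
  have a3 : 0 ≤ κ * γ * (1 / d - J / t) := by
    have : 0 ≤ (1 : ℝ) / d - J / t := by
      rw [sub_nonneg, div_le_div_iff₀ hT hD]
      linarith
    positivity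
  have a3' : κ * γ * (1 / d - J / t) ≤ κ / t := by
    have e1 : (1 : ℝ) / d - J / t ≤ 1 / t := by
      rw [sub_le_iff_le_add, ← add_div, div_le_div_iff₀ hD hT]
      linarith
    calc κ * γ * (1 / d - J / t) ≤ κ * γ * (1 / t) :=
          mul_le_mul_of_nonneg_left e1 (by positivity)
      _ ≤ κ * 1 * (1 / t) := by gcongr
      _ = κ / t := by ring
  have hden : 0 < 1 - κ * γ := by nlinarith
  have key : (1 - κ * γ) * (AA κ t d + y - 1 / d)
      = (r ^ κ - 1) / d + κ * y * (E - γ) + κ * γ * (1 / d - J / t) := by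
    have e1 : (1 - κ * γ) * AA κ t d = κ * (y * SS κ J - γ * (J / t)) := by
      unfold AA kk
      rw [← hγ, ← hJ, ← hy]
      field_simp
    have e2 : κ * (y * SS κ J) = r ^ κ / d - y + κ * y * E := by
      rw [hSS]
      have : κ * (y * (((J : ℝ) ^ κ - 1) / κ + E)) = y * (J : ℝ) ^ κ - y + κ * y * E := by
        field_simp
      rw [this, hyJ]
    have e3 : (1 - κ * γ) * (AA κ t d + y - 1 / d)
        = (1 - κ * γ) * AA κ t d + (1 - κ * γ) * (y - 1 / d) := by ring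
    rw [e3, e1, mul_sub, e2]
    ring
  have e4 : AA κ t d + y - 1 / d
      = ((r ^ κ - 1) / d + κ * y * (E - γ) + κ * γ * (1 / d - J / t)) / (1 - κ * γ) := by
    rw [← key]
    field_simp
  have e5 : 3 * kk κ t / t = (3 * κ / t) / (1 - κ * γ) := by
    unfold kk
    rw [← hγ]
    ring
  rw [e4, e5, abs_div, abs_of_pos hden]
  apply div_le_div_of_nonneg_right _ hden.le
  have e6 : 3 * κ / (t : ℝ) = 2 * κ / t + κ / t := by ring
  have e7 : 0 < κ / (t : ℝ) := by positivity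
  rw [abs_le]
  constructor
  · linarith
  · linarith

end Pool.Agent.Helper36.CB
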